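import Pool.Agent.helper36.RH.Fin

set_option autoImplicit false
open MeasureTheory Filter Topology
open scoped ENNReal

namespace Pool.Agent.Results.MP_6fecbe_an.PowerFiveHalves

/-- The plane. -/
abbrev E := EuclideanSpace ℝ (Fin 2)

/-- The open cube with centre `x`, side `2 * r` and sides parallel to the axes. -/
def Cube (x : E) (r : ℝ) : Set E := {y | ∀ i, |y i - x i| < r}

/-- `Ω` has mean zero on the circle. -/
def MeanZero (Ω : E → ℝ) : Prop :=
  (∫ y : Metric.sphere (0 : E) 1, Ω y ∂(volume : Measure E).toSphere) = 0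

/-- `b` has bounded mean oscillation. -/
def BMO (b : E → ℝ) : Prop :=
  LocallyIntegrable b ∧
    ∃ M : ℝ, ∀ (x : E) (r : ℝ), 0 < r → (⨍ y in Cube x r, |b y - ⨍ z in Cube x r, b z|) ≤ M

/-- `w` is a weight with `[w]_{A_2} ≤ A`. -/
def A2 (w : E → ℝ) (A : ℝ) : Prop :=
  LocallyIntegrable w ∧ LocallyIntegrable (fun x => (w x)⁻¹) ∧ (∀ x, 0 < w x) ∧
    ∀ (x : E) (r : ℝ), 0 < r → (⨍ y in Cube x r, w y) * (⨍ y in Cube x r, (w y)⁻¹) ≤ A

/-- `IsT Ω f x l`: the principal value `T_Ω f (x)` exists and equals `l` (here `d = 2`). -/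
def IsT (Ω f : E → ℝ) (x : E) (l : ℝ) : Prop :=
  Tendsto (fun ε : ℝ => ∫ y in {y : E | ε < ‖y‖}, Ω (‖y‖⁻¹ • y) / ‖y‖ ^ 2 * f (x - y))
    (𝓝[>] 0) (𝓝 l)

/-- The square of the norm of `f` in `L²(w)`. -/
noncomputable def sqNorm (w f : E → ℝ) : ℝ≥0∞ := ∫⁻ x, ENNReal.ofReal (|f x| ^ 2 * w x)

/-- `f` is a bounded measurable function with compact support, which is not zero in `L²(w)`. -/
def IsTest (w f : E → ℝ) : Prop :=
  Measurable f ∧ HasCompactSupport f ∧ (∀ x, |f x| ≤ 1) ∧ 0 < sqNorm w f ∧ sqNorm w f < ⊤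

/-- There are a bounded mean-zero `Ω` on the circle and a `b` in BMO of the plane such that for
some `c > 0` and all large `A` there is a weight `w` with `[w]_{A_2} ≤ A` (cubes) and
`‖[b, T_Ω]‖_{L²(w)} ≥ c A^{5/2}`. -/
theorem result :
    ∃ (Ω b : E → ℝ) (c A₀ : ℝ), 0 < c ∧ Measurable Ω ∧ (∀ y, |Ω y| ≤ 1) ∧ MeanZero Ω ∧ BMO b ∧
      ∀ A : ℝ, A₀ ≤ A → ∃ w f T S : E → ℝ, A2 w A ∧ IsTest w f ∧
        (∀ᵐ x, IsT Ω f x (T x)) ∧ (∀ᵐ x, IsT Ω (fun y => b y * f y) x (S x)) ∧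
        ENNReal.ofReal (c ^ 2 * A ^ 5) * sqNorm w f ≤ sqNorm w (fun x => b x * T x - S x) := by
  refine ⟨helper36.R.Om, helper36.R.b, (1 / 10690688) ^ 3, 16 * 83521 * 3 ^ 4, by norm_num,
    helper36.R.Om_meas, helper36.R.Om_abs_le, helper36.R.Om_sphere_zero,
    ⟨helper36.R.b_locallyIntegrable, 192, fun x r hr => helper36.R.b_bmo_Q x hr⟩, ?_⟩
  intro A hA
  obtain ⟨n, h1, h2⟩ := helper36.R.choose_n hA
  have hA0 : (0 : ℝ) ≤ A := le_trans (by norm_num) hA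
  refine ⟨helper36.R.ww n, helper36.R.ff n, helper36.R.Tf n, fun _ => 0,
    ⟨helper36.R.ww_locallyIntegrable n, helper36.R.ww_inv_locallyIntegrable n,
      helper36.R.ww_pos n, fun x r hr => (helper36.R.ww_A2_Q n x hr).trans h1⟩,
    ⟨helper36.R.ff_meas n, helper36.R.ff_compact n, helper36.R.ff_abs_le n, ?_, ?_⟩,
    helper36.R.Tf_tendsto n, ?_, ?_⟩
  · unfold sqNorm
    simp only [sq_abs]
    exact helper36.R.lintegral_f_pos n
  · unfold sqNorm
    simp only [sq_abs]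
    exact helper36.R.lintegral_f_lt_top n
  · filter_upwards with x
    unfold IsT
    simp only [helper36.R.b_mul_ff, mul_zero, integral_zero]
    exact tendsto_const_nhds
  · unfold sqNorm
    simp only [sq_abs, sub_zero]
    have h3 : (∫⁻ x, ENNReal.ofReal ((helper36.R.b x * helper36.R.Tf n x) ^ 2 *
        helper36.R.ww n x)) = ∫⁻ x, ENNReal.ofReal ((helper36.R.gg n x) ^ 2 *
        helper36.R.ww n x) := by
      apply lintegral_congr_ae
      filter_upwards [helper36.R.gg_eq n] with x hx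
      rw [hx]
    rw [h3]
    apply helper36.R.ratio n (by positivity)
    have h4 : A ^ 5 ≤ (10690688 * (helper36.R.mm n : ℝ) ^ 4) ^ 5 := pow_le_pow_left₀ hA0 h2 5
    have h5 : (0 : ℝ) ≤ (helper36.R.mm n : ℝ) ^ 20 := by positivity
    calc (((1 : ℝ) / 10690688) ^ 3) ^ 2 * A ^ 5
        ≤ ((1 / 10690688) ^ 3) ^ 2 * (10690688 * (helper36.R.mm n : ℝ) ^ 4) ^ 5 := by gcongr
      _ = (1 / 10690688) * (helper36.R.mm n : ℝ) ^ 20 := by ring
      _ ≤ (helper36.R.mm n : ℝ) ^ 20 := by linarith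

end Pool.Agent.Results.MP_6fecbe_an.PowerFiveHalves
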